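import Pool.Agent.Helper6.O3.St

/-!
# Project O3 (MP_d49380_lc), module RC: a constant coefficient recurrence of a P-recursive sequence can be checked
-/

set_option autoImplicit false

namespace Pool.Agent.Helper79.O3

open Pool.Agent.Helper6.O3 Filter Topology
open Pool.Agent.Helper4.IL (Inp Sol Std InfLC LC ev)

/-- Polynomial functions of degree `< k`, through iterated differences. -/
def PD : ℕ → (ℕ → ℚ) → Prop
  | 0, f => f = 0
  | k + 1, f => ∀ h : ℕ, PD k (fun i => f (i + h) - f i)

theorem PD.zero (k : ℕ) : PD k 0 := by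
  induction k with
  | zero => rfl
  | succ k ih =>
    intro h
    have : (fun i : ℕ => (0 : ℕ → ℚ) (i + h) - (0 : ℕ → ℚ) i) = 0 := by
      funext i; simp
    rw [this]; exact ih

theorem PD.succ {k : ℕ} {f : ℕ → ℚ} (hf : PD k f) : PD (k + 1) f := by
  induction k generalizing f with
  | zero =>
    have : f = 0 := hf
    rw [this]; exact PD.zero 1
  | succ k ih =>
    intro h
    exact ih (hf h)

theorem PD.mono {k l : ℕ} (hkl : k ≤ l) {f : ℕ → ℚ} (hf : PD k f) : PD l f := by
  induction l, hkl using Nat.le_induction with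
  | base => exact hf
  | succ l _ ih => exact ih.succ

theorem PD.add {k : ℕ} {f g : ℕ → ℚ} (hf : PD k f) (hg : PD k g) : PD k (fun i => f i + g i) := by
  induction k generalizing f g with
  | zero =>
    have h1 : f = 0 := hf
    have h2 : g = 0 := hg
    subst h1 h2
    change (fun i : ℕ => (0 : ℕ → ℚ) i + (0 : ℕ → ℚ) i) = 0
    funext i; simp
  | succ k ih =>
    intro h
    have := ih (hf h) (hg h)
    have e : (fun i => f (i + h) + g (i + h) - (f i + g i)) = fun i => f (i + h) - f i + (g (i + h) - g i) := by
      funext i; ring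
    rw [e]; exact this

theorem PD.smul {k : ℕ} {f : ℕ → ℚ} (c : ℚ) (hf : PD k f) : PD k (fun i => c * f i) := by
  induction k generalizing f with
  | zero =>
    have h1 : f = 0 := hf
    subst h1
    change (fun i : ℕ => c * (0 : ℕ → ℚ) i) = 0
    funext i; simp
  | succ k ih =>
    intro h
    have := ih (hf h)
    have e : (fun i => c * f (i + h) - c * f i) = fun i => c * (f (i + h) - f i) := by
      funext i; ring
    rw [e]; exact this

theorem PD.shift {k : ℕ} {f : ℕ → ℚ} (s : ℕ) (hf : PD k f) : PD k (fun i => f (i + s)) := by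
  induction k generalizing f with
  | zero =>
    have h1 : f = 0 := hf
    subst h1
    rfl
  | succ k ih =>
    intro h
    have := ih (hf h)
    have e : (fun i => f (i + h + s) - f (i + s)) = fun i => f (i + s + h) - f (i + s) := by
      funext i; rw [show i + h + s = i + s + h by ring]
    rw [e]; exact this

theorem PD.const (k : ℕ) (c : ℚ) : PD (k + 1) (fun _ => c) := by
  intro h
  have e : (fun _ : ℕ => c - c) = 0 := by funext i; simp
  rw [e]; exact PD.zero k

theorem PD.lin {k : ℕ} {f : ℕ → ℚ} (α : ℚ) (hf : PD k f) : PD (k + 1) (fun i => (α + i) * f i) := by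
  induction k generalizing f with
  | zero =>
    have h1 : f = 0 := hf
    subst h1
    have e : (fun i : ℕ => (α + i) * (0 : ℕ → ℚ) i) = 0 := by funext i; simp
    rw [e]; exact PD.zero 1
  | succ k ih =>
    intro h
    have h1 := ih (hf h)
    have h2 : PD (k + 1) (fun i => (h : ℚ) * f (i + h)) := (hf.shift h).smul h
    have h3 := h1.add h2
    have e : (fun i : ℕ => (α + ((i + h : ℕ) : ℚ)) * f (i + h) - (α + i) * f i) =
        fun i : ℕ => (α + i) * (f (i + h) - f i) + (h : ℚ) * f (i + h) := by
      funext i; push_cast; ring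
    rw [e]; exact h3

theorem PD_ev (p : List ℤ) (N : ℕ) : PD p.length (fun i => ev p ((N + i : ℕ) : ℚ)) := by
  induction p with
  | nil =>
    change (fun i : ℕ => ev [] ((N + i : ℕ) : ℚ)) = 0
    funext i; rfl
  | cons c p ih =>
    have h1 := (PD.const p.length (c : ℚ)).add (ih.lin (N : ℚ))
    have e : (fun i : ℕ => ev (c :: p) ((N + i : ℕ) : ℚ)) =
        fun i : ℕ => (c : ℚ) + ((N : ℚ) + i) * ev p ((N + i : ℕ) : ℚ) := by
      funext i
      change (c : ℚ) + ((N + i : ℕ) : ℚ) * ev p ((N + i : ℕ) : ℚ) = _
      push_cast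
      ring
    rw [e]; exact h1

/-- The combinations of shifts of `b` with coefficients of degree `< k`. -/
def CC (b : ℕ → ℚ) (k : ℕ) : Submodule ℚ (ℕ → ℚ) :=
  Submodule.span ℚ {u | ∃ (f : ℕ → ℚ) (e : ℕ), PD k f ∧ u = fun i => f i * b (i + e)}

theorem CC_zero {b u : ℕ → ℚ} (hu : u ∈ CC b 0) : u = 0 := by
  unfold CC at hu
  induction hu using Submodule.span_induction with
  | mem x hx =>
    obtain ⟨f, e, hf, rfl⟩ := hx
    have h1 : f = 0 := hf
    subst h1
    funext i; simp
  | zero => rfl
  | add x y _ _ h1 h2 => rw [h1, h2, add_zero]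
  | smul c x _ h1 => rw [h1, smul_zero]

theorem CC_step {p q r : ℚ} {b : ℕ → ℚ} (hb : ∀ m, ka p q r b m = 0) {k : ℕ} {u : ℕ → ℚ}
    (hu : u ∈ CC b (k + 1)) : (fun i => ka p q r u i) ∈ CC b k := by
  unfold CC at hu
  induction hu using Submodule.span_induction with
  | mem x hx =>
    obtain ⟨f, e, hf, rfl⟩ := hx
    have g : ∀ h : ℕ, (fun i => (f (i + h) - f i) * b (i + (h + e))) ∈ CC b k :=
      fun h => Submodule.subset_span ⟨_, _, hf h, rfl⟩
    have h1 := (CC b k).sub_mem ((CC b k).sub_mem (g 3) ((CC b k).smul_mem p (g 2)))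
      ((CC b k).smul_mem q (g 1))
    convert h1 using 1
    funext i
    have h2 := hb (i + e)
    unfold ka at h2 ⊢
    simp only [Pi.sub_apply, Pi.smul_apply, smul_eq_mul]
    have e3 : i + 3 + e = i + e + 3 := by ring
    have e2 : i + 2 + e = i + e + 2 := by ring
    have e1 : i + 1 + e = i + e + 1 := by ring
    have e3' : i + (3 + e) = i + e + 3 := by ring
    have e2' : i + (2 + e) = i + e + 2 := by ring
    have e1' : i + (1 + e) = i + e + 1 := by ring
    rw [e3, e2, e1, e3', e2', e1']
    linear_combination f i * h2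
  | zero =>
    have e : (fun i => ka p q r (0 : ℕ → ℚ) i) = 0 := by
      funext i; simp [ka]
    rw [e]; exact (CC b k).zero_mem
  | add x y _ _ h1 h2 =>
    have e : (fun i => ka p q r (x + y) i) = (fun i => ka p q r x i) + fun i => ka p q r y i := by
      funext i; simp only [ka, Pi.add_apply]; ring
    rw [e]; exact (CC b k).add_mem h1 h2
  | smul c x _ h1 =>
    have e : (fun i => ka p q r (c • x) i) = c • fun i => ka p q r x i := by
      funext i; simp only [ka, Pi.smul_apply, smul_eq_mul]; ring
    rw [e]; exact (CC b k).smul_mem c h1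

/-- A sequence in `CC b k` which vanishes at the first `3 k` indices is zero. -/
theorem CC_vanish {p q r : ℚ} {b : ℕ → ℚ} (hb : ∀ m, ka p q r b m = 0) (k : ℕ) :
    ∀ u : ℕ → ℚ, u ∈ CC b k → (∀ i, i < 3 * k → u i = 0) → u = 0 := by
  induction k with
  | zero => intro u hu _; exact CC_zero hu
  | succ k ih =>
    intro u hu hv
    have h1 := ih _ (CC_step hb hu) (fun i hi => by
      unfold ka
      rw [hv (i + 3) (by omega), hv (i + 2) (by omega), hv (i + 1) (by omega), hv i (by omega)]
      ring)
    funext n
    induction n using Nat.strong_induction_on with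
    | _ n ihn =>
      by_cases hn : n < 3
      · exact hv n (by omega)
      · obtain ⟨m, rfl⟩ : ∃ m, n = m + 3 := ⟨n - 3, by omega⟩
        have h2 := congrFun h1 m
        unfold ka at h2
        simp only [Pi.zero_apply] at h2 ihn ⊢
        rw [ihn (m + 2) (by omega), ihn (m + 1) (by omega), ihn m (by omega)] at h2
        linarith

/-- The solution of the recurrence with given initial values. -/
def bq (p q r x0 x1 x2 : ℚ) : ℕ → ℚ
  | 0 => x0
  | 1 => x1
  | 2 => x2
  | n + 3 => p * bq p q r x0 x1 x2 (n + 2) + q * bq p q r x0 x1 x2 (n + 1) + r * bq p q r x0 x1 x2 n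

theorem length_getD_le (l : List (List ℤ)) (j : ℕ) : (l.getD j []).length ≤ (l.map List.length).sum := by
  induction l generalizing j with
  | nil => simp
  | cons c l ih =>
    cases j with
    | zero => simp
    | succ j =>
      have := ih j
      simp only [List.getD_cons_succ, List.map_cons, List.sum_cons]
      omega

theorem hRC : StRC := by
  intro x a hstd hsol p q r N hrec
  set d := x.2.length with hd
  set D := (x.1.map List.length).sum with hD
  have hBd : Bd x = 3 * D + d := rfl
  set b : ℕ → ℚ := bq p q r (a N) (a (N + 1)) (a (N + 2)) with hbdef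
  have hb : ∀ m, ka p q r b m = 0 := by
    intro m
    unfold ka
    have : b (m + 3) = p * b (m + 2) + q * b (m + 1) + r * b m := rfl
    rw [this]; ring
  have hba : ∀ i, i < Bd x + 3 → b i = a (N + i) := by
    intro i
    induction i using Nat.strong_induction_on with
    | _ i ih =>
      intro hi
      match i, ih, hi with
      | 0, _, _ => rfl
      | 1, _, _ => rfl
      | 2, _, _ => rfl
      | m + 3, ih, hi =>
        have h1 := hrec (N + m) (by omega) (by omega)
        have h2 := hb m
        unfold ka at h1 h2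
        have i1 := ih (m + 2) (by omega) (by omega)
        have i2 := ih (m + 1) (by omega) (by omega)
        have i3 := ih m (by omega) (by omega)
        rw [i1, i2, i3] at h2
        have e3 : N + m + 3 = N + (m + 3) := by ring
        have e2 : N + m + 2 = N + (m + 2) := by ring
        have e1 : N + m + 1 = N + (m + 1) := by ring
        rw [e3, e2, e1] at h1
        linarith
  set s : ℕ → ℚ := fun i => ∑ j ∈ Finset.range x.1.length, ev (x.1.getD j []) ((N + i : ℕ) : ℚ) * b (i + j)
    with hs
  have hsC : s ∈ CC b D := by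
    have e : s = ∑ j ∈ Finset.range x.1.length, fun i => ev (x.1.getD j []) ((N + i : ℕ) : ℚ) * b (i + j) := by
      funext i; simp [hs, Finset.sum_apply]
    rw [e]
    apply Submodule.sum_mem
    intro j _
    exact Submodule.subset_span ⟨_, j, (PD_ev (x.1.getD j []) N).mono (length_getD_le x.1 j), rfl⟩
  have hs0 : s = 0 := by
    apply CC_vanish hb D s hsC
    intro i hi
    have h1 := hsol.1 (N + i)
    rw [← h1]
    apply Finset.sum_congr rfl
    intro j hj
    have hj' : j < d + 1 := by
      have := Finset.mem_range.1 hj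
      rwa [hstd.1] at this
    rw [hba (i + j) (by omega), ← Nat.add_assoc]
  have hall : ∀ i, b i = a (N + i) := by
    intro i
    induction i using Nat.strong_induction_on with
    | _ i ih =>
      by_cases hi : i < d
      · exact hba i (by omega)
      · obtain ⟨m, rfl⟩ : ∃ m, i = m + d := ⟨i - d, by omega⟩
        have h1 := hsol.1 (N + m)
        have h2 : ∑ j ∈ Finset.range x.1.length, ev (x.1.getD j []) ((N + m : ℕ) : ℚ) * b (m + j) = 0 :=
          congrFun hs0 m
        rw [hstd.1, Finset.sum_range_succ] at h1 h2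
        have h3 : ∑ j ∈ Finset.range x.2.length, ev (x.1.getD j []) ((N + m : ℕ) : ℚ) * b (m + j) =
            ∑ j ∈ Finset.range x.2.length, ev (x.1.getD j []) ((N + m : ℕ) : ℚ) * a (N + m + j) := by
          apply Finset.sum_congr rfl
          intro j hj
          have hj' : j < d := Finset.mem_range.1 hj
          rw [ih (m + j) (by omega), ← Nat.add_assoc]
        rw [h3] at h2
        have h4 := hstd.2 (N + m)
        have h5 : ev (x.1.getD x.2.length []) ((N + m : ℕ) : ℚ) * (b (m + d) - a (N + (m + d))) = 0 := by
          have e : N + (m + d) = N + m + x.2.length := by omega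
          rw [e, mul_sub]
          have e2 : m + d = m + x.2.length := rfl
          rw [e2]
          linarith
        rcases mul_eq_zero.1 h5 with h6 | h6
        · exact absurd h6 h4
        · linarith
  intro m hm
  obtain ⟨i, rfl⟩ : ∃ i, m = N + i := ⟨m - N, by omega⟩
  have h1 := hb i
  unfold ka at h1 ⊢
  rw [hall (i + 3), hall (i + 2), hall (i + 1), hall i] at h1
  have e3 : N + i + 3 = N + (i + 3) := by ring
  have e2 : N + i + 2 = N + (i + 2) := by ring
  have e1 : N + i + 1 = N + (i + 1) := by ring
  rw [e3, e2, e1]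
  exact h1

end Pool.Agent.Helper79.O3
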